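import Pool.Agent.H50.ODG.Targets

set_option autoImplicit false

open Pool.Agent.H57.CP Pool.Agent.H39.TO Pool.Agent.H39.OD Pool.Agent.H50.ODG

namespace Pool.Agent.H16.ODG

/-- the reflection in the second coordinate -/
noncomputable def dg : V4 →ₗ[ℝ] V4 where
  toFun x := ![x 0, -x 1, x 2, x 3]
  map_add' x y := by ext i; fin_cases i <;> simp [add_comm]
  map_smul' c x := by ext i; fin_cases i <;> simp

theorem dg_apply (x : V4) : dg x = ![x 0, -x 1, x 2, x 3] := rfl

theorem lor_dg : Lor dg := by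
  refine ⟨fun x y => ?_, fun x => ?_⟩
  · rw [dg_apply, dg_apply]
    simp only [mk, Matrix.cons_val]
    ring
  · rw [dg_apply]
    simpa using x.2.2

theorem cos_pi_sub' (a : ℝ) : Real.cos (Real.pi - a) = -Real.cos a := Real.cos_pi_sub a

theorem eL_mir (u v w : ℚ) (α β : ℝ) : eL u v w (Real.pi - α) (Real.pi - β) = eL u v w α β := by
  unfold eL
  rw [Real.cos_pi_sub, Real.cos_pi_sub, Real.sin_pi_sub, Real.sin_pi_sub]
  ring

theorem eS_mir (u v w : ℚ) (α β : ℝ) : eS u v w (Real.pi - α) (Real.pi - β) = eS u v w α β := by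
  unfold eS
  rw [eL_mir]

theorem pf_MIM (hMKI : T_MKI) : T_MIM := by
  intro u v w α β
  obtain ⟨g, hg, hext⟩ := hMKI dg lor_dg
  refine ⟨g, dg, hg, hext, lor_dg, ?_, ?_, ?_, ?_, ?_⟩
  · apply Subtype.ext
    rw [← hext]
    rw [dg_apply]
    ext i
    fin_cases i <;> simp [o]
  · apply Subtype.ext
    rw [← hext, dg_apply]
    have h : x1 u v w (Real.pi - α) (Real.pi - β) = x1 u v w α β := by
      unfold x1
      rw [eS_mir]
    rw [h]
    ext i
    fin_cases i <;> simp [x1, pt]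
  · rw [dg_apply]
    ext i
    fin_cases i <;> simp [na, Real.cos_pi_sub, Real.sin_pi_sub]
  · rw [dg_apply]
    ext i
    fin_cases i <;> simp [nb, Real.cos_pi_sub, Real.sin_pi_sub, eL_mir, eS_mir]
  · rw [dg_apply]
    ext i
    fin_cases i <;> simp [m1]

end Pool.Agent.H16.ODG
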