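import Pool.Agent.H50.ODG.Targets

set_option autoImplicit false

open Pool.Agent.H57.CP Pool.Agent.H39.TO Pool.Agent.H39.OD Pool.Agent.H50.ODG

namespace Pool.Agent.H16.ODG

theorem mk_symm' (x y : V4) : mk x y = mk y x := by
  unfold mk
  ring

theorem mk_smul_left (r : ℝ) (x y : V4) : mk (r • x) y = r * mk x y := by
  unfold mk
  simp only [Pi.smul_apply, smul_eq_mul]
  ring

theorem mk_add_left' (x y z : V4) : mk (x + y) z = mk x z + mk y z := by
  unfold mk
  simp only [Pi.add_apply]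
  ring

theorem mk_sum_left {ι : Type*} (s : Finset ι) (f : ι → V4) (z : V4) :
    mk (∑ i ∈ s, f i) z = ∑ i ∈ s, mk (f i) z := by
  classical
  induction s using Finset.induction_on with
  | empty => simp [mk]
  | insert a s ha ih => rw [Finset.sum_insert ha, Finset.sum_insert ha, mk_add_left', ih]

theorem mk_sum_right {ι : Type*} (s : Finset ι) (f : ι → V4) (z : V4) :
    mk z (∑ i ∈ s, f i) = ∑ i ∈ s, mk z (f i) := by
  rw [mk_symm', mk_sum_left]
  exact Finset.sum_congr rfl fun i _ => mk_symm' _ _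

theorem mk_zero_of_refl {n c : V4} (hn : mk n n = -1) (h : refl n c = c) : mk n c = 0 := by
  by_contra hne
  have h1 : ∀ i, 2 * mk n c * n i = 0 := by
    intro i
    have h2 := congrFun h i
    have h3 : refl n c i = c i + 2 * mk n c * n i := rfl
    rw [h3] at h2
    linarith
  have h4 : ∀ i, n i = 0 := by
    intro i
    rcases mul_eq_zero.1 (h1 i) with h5 | h5
    · exfalso
      exact hne (by linarith)
    · exact h5
  have h6 : mk n n = 0 := by
    unfold mk
    rw [h4 0, h4 1, h4 2, h4 3]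
    ring
  rw [h6] at hn
  norm_num at hn

theorem pf_VIN (hRFX : T_RFX) (hCTR : T_CTR) : T_VIN := by
  classical
  intro x x' n0 n1 n2 h0 h1 h2 hno hfin
  obtain ⟨V, hV⟩ : ∃ V, V = (KA x x' (rf n0) (rf n1) (rf n2)).V := ⟨_, rfl⟩
  rw [← hV] at hfin
  obtain ⟨F, hF⟩ : ∃ F : Finset H3, ∀ z, z ∈ F ↔ z ∈ V := ⟨hfin.toFinset, fun z => by simp⟩
  have hmem : ∀ z, z ∈ V ↔ ∃ g ∈ G3 (rf n0) (rf n1) (rf n2), z = g x ∨ z = g x' := by
    intro z
    rw [hV]
    rfl
  have hstab : ∀ a ∈ G3 (rf n0) (rf n1) (rf n2), ∀ z ∈ V, a z ∈ V := by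
    intro a ha z hz
    obtain ⟨g, hg, h⟩ := (hmem z).1 hz
    rw [hmem]
    refine ⟨a * g, mul_mem ha hg, ?_⟩
    rcases h with h | h
    · left
      rw [h]
      rfl
    · right
      rw [h]
      rfl
  have hxF : x ∈ F := by
    rw [hF, hmem]
    exact ⟨1, one_mem _, Or.inl rfl⟩
  obtain ⟨c, hc⟩ : ∃ c : V4, c = ∑ z ∈ F, z.1 := ⟨_, rfl⟩
  have hfix : ∀ n : V4, mk n n = -1 → rf n ∈ G3 (rf n0) (rf n1) (rf n2) → mk n c = 0 := by
    intro n hn hG
    apply mk_zero_of_refl hn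
    obtain ⟨hr1, -, hr2, -, -, -⟩ := hRFX n hn
    rw [hc, map_sum]
    have hinv : ∀ z, rf n (rf n z) = z := fun z => by
      have := congrArg (fun e : Equiv.Perm H3 => e z) hr2
      exact this
    apply Finset.sum_nbij' (fun z => rf n z) (fun z => rf n z)
    · intro z hz
      rw [hF] at hz ⊢
      exact hstab _ hG _ hz
    · intro z hz
      rw [hF] at hz ⊢
      exact hstab _ hG _ hz
    · intro z _
      exact hinv z
    · intro z _
      exact hinv z
    · intro z _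
      exact (hr1 z).symm
  have hG0 : rf n0 ∈ G3 (rf n0) (rf n1) (rf n2) := Subgroup.subset_closure (by simp)
  have hG1 : rf n1 ∈ G3 (rf n0) (rf n1) (rf n2) := Subgroup.subset_closure (by simp)
  have hG2 : rf n2 ∈ G3 (rf n0) (rf n1) (rf n2) := Subgroup.subset_closure (by simp)
  have hcc : 0 < mk c c := by
    rw [hc, mk_sum_left]
    apply Finset.sum_pos _ ⟨x, hxF⟩
    intro z _
    rw [mk_sum_right]
    apply Finset.sum_pos _ ⟨x, hxF⟩
    intro w _
    have := (hCTR z w w).1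
    unfold ch at this
    linarith
  have hc3 : 0 < c 3 := by
    rw [hc, Finset.sum_apply]
    apply Finset.sum_pos _ ⟨x, hxF⟩
    intro z _
    exact z.2.2
  obtain ⟨s, hs⟩ : ∃ s, s = Real.sqrt (mk c c) := ⟨_, rfl⟩
  have hs0 : 0 < s := by
    rw [hs]
    exact Real.sqrt_pos.2 hcc
  have hss : s * s = mk c c := by
    rw [hs]
    exact Real.mul_self_sqrt hcc.le
  apply hno
  refine ⟨⟨s⁻¹ • c, ?_, ?_⟩, ?_, ?_, ?_⟩
  · rw [mk_smul_left, mk_symm', mk_smul_left, ← hss]
    field_simp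
  · rw [Pi.smul_apply, smul_eq_mul]
    positivity
  · rw [mk_smul_left, mk_symm', hfix n0 h0 hG0, mul_zero]
  · rw [mk_smul_left, mk_symm', hfix n1 h1 hG1, mul_zero]
  · rw [mk_smul_left, mk_symm', hfix n2 h2 hG2, mul_zero]

end Pool.Agent.H16.ODG
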